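import Mathlib

/-!
# MP_a41896_nt, full case: uniqueness of invariant hypersurfaces through a point

Let `ψ_i² = B_i(x_i)` and let `∂_i = ψ_i ∂/∂X_i` be the invariant derivations.  An irreducible polynomial `h ∈ K[X_σ]` with
`h ∣ n_k B_i (∂h/∂X_i)² - n_i B_k (∂h/∂X_k)²` for all `i, k` (the squares of the normal vector are proportional to the constant vector `n`)
is determined up to `2^|σ|` possibilities by a point `P` with `h(P) = 0`: `h` vanishes on the formal orbit of `P` under the derivations
`∑ a_k ∂_k`, `∑ a_k r_k = 0`, `r_k² n_(i1) = n_k`.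

All goals are independent (named goals may be hypotheses of others as indicated); `Ω` is any algebraically closed field containing `K`.
-/

set_option autoImplicit false

open MvPolynomial

namespace Pool.Agent.Helper92.UQ

noncomputable section

/-- the polynomial `B_i(X_i)` -/
def Bq {K : Type} [Field K] {σ : Type} (B : σ → Polynomial K) (i : σ) : MvPolynomial σ K :=
  Polynomial.aeval (X i) (B i)

/-- `h` is invariant for the vector `n` (squares of the normal vector) -/
structure Inv {K : Type} [Field K] {σ : Type} (B : σ → Polynomial K) (n : σ → K)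
    (h : MvPolynomial σ K) : Prop where
  irr : Irreducible h
  ex : ∃ i, ¬ h ∣ Bq B i * pderiv i h ^ 2
  dvd : ∀ i k, h ∣ C (n k) * Bq B i * pderiv i h ^ 2 - C (n i) * Bq B k * pderiv k h ^ 2

/-- the generic point of `h = 0`: `x`, square roots `ψ` of `B(x)`, slopes `r` (normalised by `r i1 = 1`) -/
structure Gen {K : Type} [Field K] {σ : Type} (B : σ → Polynomial K) (n : σ → K)
    (h : MvPolynomial σ K) (i1 : σ) {F : Type} [Field F] [Algebra K F] (x ψ r : σ → F) :
    Prop where
  ker : ∀ p : MvPolynomial σ K, aeval x p = 0 ↔ h ∣ p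
  alg : Algebra.IsAlgebraic (IntermediateField.adjoin K (Set.range x)) F
  sq : ∀ k, ψ k ^ 2 = Polynomial.aeval (x k) (B k)
  psi : ∀ k, ψ k ≠ 0
  one : r i1 = 1
  slo : ∀ k, algebraMap K F (n i1) * r k ^ 2 = algebraMap K F (n k)
  nor : ∀ k, ψ k * aeval x (pderiv k h) = r k * (ψ i1 * aeval x (pderiv i1 h))
  ne : aeval x (pderiv i1 h) ≠ 0

/-- the formal solution `X' = Y`, `2 Y' = B'(X)`, `X(0) = p`, `Y(0) = s` -/
structure Sol {Ω : Type} [Field Ω] (B : Polynomial Ω) (p s : Ω) (X Y : PowerSeries Ω) :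
    Prop where
  dX : PowerSeries.derivative Ω X = Y
  dY : 2 * PowerSeries.derivative Ω Y = Polynomial.aeval X (Polynomial.derivative B)
  cX : PowerSeries.constantCoeff X = p
  cY : PowerSeries.constantCoeff Y = s

/-- **DERF**: derivations of a field with prescribed values on a transcendence basis. No hypotheses.
PROOF. `R0 := MvPolynomial ι K → F` (`aeval y`), injective. `F` is formally étale over `R0`: the fraction field `F0 = K(y)` is a localization of `R0` (`Algebra.FormallyEtale.of_isLocalization`), `F / F0` is algebraic, separable in characteristic `0` (`Algebra.FormallyEtale.of_isSeparable`), composition (`FormallyEtale.comp`). So `F ⊗[R0] Ω[R0⁄K] ≃ Ω[F⁄K]`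
(`KaehlerDifferential.tensorKaehlerEquivOfFormallyEtale`), and the derivation `MvPolynomial.mkDerivation K b : R0 → F` gives a linear map `Ω[R0⁄K] → F` (`Derivation.liftKaehlerDifferential`), hence a linear map `Ω[F⁄K] → F` and a derivation of `F`. (Alternatively: Zorn / `Differential` API, `Mathlib/FieldTheory/Differential/Basic.lean`, or extension step by step.) -/
def DERF : Prop :=
  ∀ (K : Type) [Field K] [CharZero K] (F : Type) [Field F] [Algebra K F] (ι : Type)
    (y b : ι → F), IsTranscendenceBasis K y → ∃ D : Derivation K F F, ∀ i, D (y i) = b i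

/-- **GENP**: the generic point. No hypotheses.
PROOF. `A := MvPolynomial σ K ⧸ Ideal.span {h}` is a domain (`h` irreducible in a UFD, so prime), `F := AlgebraicClosure (FractionRing A)`, `x k` the image of `X k`: `ker`, `alg` (`FractionRing A = K(x)`; `F` is algebraic over it, so over the intermediate field `K(x) ⊆ F`: every element of the image of `FractionRing A` is in `adjoin K (range x)`). `ψ k` a square root of `B_k(x_k)`. Let `ν k := ψ_k h_k(x)`, `h_k = pderiv k h`. `dvd` gives `n_k ν_i² = n_i ν_k²` for all `i, k`, `ex`: some `ν_i ≠ 0` (`ν_i² = aeval x (Bq B i * h_i²)`).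
`n i1 ≠ 0`: if `ν_(i1) = 0` then `n_(i1) ν_k² = n_k ν_(i1)² = 0` for all `k`, contradiction. So `ν_(i1) ≠ 0`, `r k := ν_k / ν_(i1)`: `n_(i1) ν_k² = n_k ν_(i1)²` is `slo`; `one`, `nor`, `ne`.
`psi`: if `ψ_k = 0` then `B_k(x_k) = 0`, so `h ∣ Bq B k ∈ K[X_k]` and (`Bq B k ≠ 0` because `B k ≠ 0`) `h` involves only the variable `X_k` (degrees: `degreeOf i h ≤ degreeOf i (Bq B k) = 0` for `i ≠ k`), so `pderiv i h = 0` for `i ≠ k`, and `ν_k = 0`: all `ν = 0`, contradiction. -/
def GENP : Prop :=
  ∀ (K : Type) [Field K] [CharZero K] (σ : Type) [Fintype σ] [DecidableEq σ]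
    (B : σ → Polynomial K), (∀ i, B i ≠ 0) → ∀ (n : σ → K) (h : MvPolynomial σ K) (i1 : σ),
    Inv B n h → n i1 ≠ 0 → ∃ (F : Type) (_ : Field F) (_ : Algebra K F) (x ψ r : σ → F),
      Gen B n h i1 x ψ r

/-- **DERG**: the invariant derivations of the function field. Hypothesis allowed: DERF.
PROOF. `h_(i1)(x) ≠ 0`, so `h` involves `X_(i1)`: the `x_k`, `k ≠ i1`, are algebraically independent over `K` (a polynomial `p` without `X_(i1)` with `p(x) = 0` is divisible by `h`, so `p = 0` by the degree in `X_(i1)`), and `x_(i1)` is algebraic over `K(x_k : k ≠ i1)` (`h(x) = 0`; as a polynomial in `X_(i1)` with coefficients in the other variables, the leading coefficient is not divisible by `h`, so its value is not `0`).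
With `alg`: the family `fun k : {k // k ≠ i1} => x k` is a transcendence basis of `F`. DERF with `b_k = a_k ψ_k`. `0 = D(h(x)) = ∑_k h_k(x) D x_k` (`Derivation` of `aeval`: `MvPolynomial` chain rule, by induction on `h` or `Derivation.mk..`, `mkDerivation`), so `h_(i1)(x) D x_(i1) = - ∑_(k ≠ i1) a_k ψ_k h_k(x) = - ∑ a_k r_k ψ_(i1) h_(i1)(x)` (`nor`): second part. `slo`: `D (n_(i1) r_k²) = D (n_k) = 0`, so `r_k D r_k = 0`; if `r_k = 0` also
`D r_k = 0`. `2 ψ_k D ψ_k = B_k'(x_k) D x_k` and `ψ_k ≠ 0`. -/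
def DERG : Prop :=
  ∀ (K : Type) [Field K] [CharZero K] (σ : Type) [Fintype σ] [DecidableEq σ]
    (B : σ → Polynomial K) (n : σ → K) (h : MvPolynomial σ K) (i1 : σ) (F : Type) [Field F]
    [Algebra K F] (x ψ r : σ → F), n i1 ≠ 0 → Gen B n h i1 x ψ r → ∀ a : σ → K,
    ∃ (D : Derivation K F F) (al : σ → F), (∀ k, k ≠ i1 → al k = algebraMap K F (a k)) ∧
      al i1 = - ∑ k ∈ Finset.univ.erase i1, algebraMap K F (a k) * r k ∧
      (∀ k, D (x k) = al k * ψ k) ∧ (∀ k, D (r k) = 0) ∧
      ∀ k, 2 * D (ψ k) = al k * Polynomial.aeval (x k) (Polynomial.derivative (B k))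

/-- **LYO**: extension of homomorphisms into an algebraically closed field along integral extensions. No hypotheses.
PROOF. `p := RingHom.ker φ` is a prime ideal of `A` and contains the kernel of `A → B`: lying over (`Ideal.exists_ideal_over_prime_of_isIntegral`, or pass to the range of `A → B`) gives a prime `q` of `B` with `q.comap (algebraMap A B) = p`. `A ⧸ p → B ⧸ q` is an injective integral extension of domains and `A ⧸ p → Ω` is injective: `IsAlgClosed.lift`. -/
def LYO : Prop :=
  ∀ (A B Ω : Type) [CommRing A] [CommRing B] [Algebra A B] [Algebra.IsIntegral A B]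
    [Field Ω] [IsAlgClosed Ω] (φ : A →+* Ω),
    RingHom.ker (algebraMap A B) ≤ RingHom.ker φ → ∃ θ : B →+* Ω, ∀ a, θ (algebraMap A B a) = φ a

/-- **TAYD**: the Taylor homomorphism of a derivation. No hypotheses.
PROOF. `E s := PowerSeries.mk fun m => θ (D^[m] s) / m!`. Additivity, `constantCoeff`, `(E s)' = E (D s)` are clear. By induction on `m`: for all `s, t` the coefficients of `E (s t)` and `E s * E t` of index `m` agree: `(m + 1)` times the coefficient `m + 1` is the coefficient `m` of the derivative: `E (D (s t)) = E (s D t + t D s)`, resp. `E s * E (D t) + E t * E (D s)`. `E 1 = 1`: `D 1 = 0`. -/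
def TAYD : Prop :=
  ∀ (S Ω : Type) [CommRing S] [Field Ω] [CharZero Ω] (D : Derivation ℤ S S) (θ : S →+* Ω),
    ∃ E : S →+* PowerSeries Ω, ∀ s, PowerSeries.constantCoeff (E s) = θ s ∧
      PowerSeries.derivative Ω (E s) = E (D s)

/-- **ODE**: existence, uniqueness and scaling. No hypotheses.
PROOF. Characteristic `0`. Existence: define the coefficients of `X, Y` by recursion: `(m+1) x_(m+1) = y_m`, `2 (m+1) y_(m+1) = ` the coefficient `m` of `B'(X)`, which depends only on `x_0, .., x_m` (or: fixed point by truncations, strong recursion on pairs). Uniqueness: if `f' = a g`, `2 g' = a B'(f)` with the same constant terms then by induction the coefficients of `f` and `rescale a X` (and of `g`, `rescale a Y`) agree up to index `m`: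
`rescale a X` satisfies the same equations (`(rescale a X)' = a rescale a (X')`), and the coefficient `m` of `B'(f)` depends only on the coefficients `≤ m` of `f` (`PowerSeries.trunc` or `X^(m+1) ∣ f - f' → X^(m+1) ∣ q(f) - q(f')`, `Polynomial.sub_dvd_eval_sub`). -/
def ODE : Prop :=
  ∀ (Ω : Type) [Field Ω] [CharZero Ω] (B : Polynomial Ω) (p s : Ω),
    (∃ X Y, Sol B p s X Y) ∧ ∀ (X Y : PowerSeries Ω), Sol B p s X Y →
      ∀ (a : Ω) (f g : PowerSeries Ω), PowerSeries.constantCoeff f = p →
        PowerSeries.constantCoeff g = s →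
        PowerSeries.derivative Ω f = PowerSeries.C a * g →
        2 * PowerSeries.derivative Ω g =
          PowerSeries.C a * Polynomial.aeval f (Polynomial.derivative B) →
        f = PowerSeries.rescale a X

/-- **TRS**: the solution is transcendental. No hypotheses.
PROOF. `X` is not constant: the coefficient of `t` is `s`, and if `s = 0` that of `t²` is `B'(p) / 4 ≠ 0`. `Ω` is algebraically closed: `q = c ∏ (T - α_i)`, `q(X) = c ∏ (X - α_i) ≠ 0` in the domain `PowerSeries Ω`. -/
def TRS : Prop :=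
  ∀ (Ω : Type) [Field Ω] [CharZero Ω] [IsAlgClosed Ω] (B : Polynomial Ω) (p s : Ω)
    (X Y : PowerSeries Ω), Sol B p s X Y → (s ≠ 0 ∨ (Polynomial.derivative B).eval p ≠ 0) →
    ∀ q : Polynomial Ω, Polynomial.aeval X q = 0 → q = 0

/-- **INDS**: independence of power series in separate variables, tested on all lines with directions in the infinite field `K`. No hypotheses.
PROOF. Write `R = ∑_α R_α X^α`. For `p : σ → ℕ` put `c_p := ∑_α R_α ∏_k [t^(p k)] (X_k^(α k))`. The coefficient of `u^m` in `R(X_k(a_k u))` is `∑_(|p| = m) c_p ∏ a_k^(p k)` (`coeff` of a finite product, `PowerSeries.coeff_prod`, `coeff_rescale`), for all `a ∈ K^σ`; `K` is infinite, so all `c_p = 0` (`MvPolynomial.funext` on an infinite subset of `Ω`: `MvPolynomial.funext_set` or `eq_zero_of_eval_zero_at_prod_finset`).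
Then `R = 0` by induction on the number of variables: the arrays `α ↦ ([t^p] X_k^α)_p` are linearly independent for every `k` (this is the hypothesis `hX`). E.g. prove for a `Finset` `s` of variables: if `∑_α a_α ∏_(k ∈ s) [t^(p k)] (X_k^(α k)) = 0` for all `p`, `a` a finitely supported function of `α : s → ℕ`, then `a = 0`. (`σ ≃ Fin m` and `Fin.cons` may be easier.) -/
def INDS : Prop :=
  ∀ (K Ω : Type) [Field K] [Infinite K] [Field Ω] [Algebra K Ω] (σ : Type) [Fintype σ]
    [DecidableEq σ] (X : σ → PowerSeries Ω),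
    (∀ k (q : Polynomial Ω), Polynomial.aeval (X k) q = 0 → q = 0) →
    ∀ R : MvPolynomial σ Ω,
      (∀ a : σ → K, aeval (fun k => PowerSeries.rescale (algebraMap K Ω (a k)) (X k)) R = 0) →
      R = 0

/-- **ORB**: an invariant `h` vanishes on the formal orbit of `P`. Hypotheses allowed: GENP, DERG, LYO, TAYD, ODE.
PROOF. GENP: `F, x, ψ, r`. `S := Algebra.adjoin K (range x ∪ range ψ ∪ range r) ⊆ F`. `A := MvPolynomial σ K → S`, `X k ↦ x k`, has kernel `(h)` and `S` is integral over it (`ψ_k² = B_k(x_k)`, `r_k² = n_k / n_(i1)`). LYO with `φ = aeval P` (`h(P) = 0`): `θ : S → Ω`, `θ(x_k) = P_k`, and `θ` is a `K`-algebra homomorphism. `θ(ψ_k)² = B_k(P_k) = s_k²`: `θ(ψ_k) = ε_k s_k`, `ε_k = ±1`. `r''_k := ε_(i1) ε_k θ(r_k)` (so `r''_(i1) = 1`).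
Given `a : σ → K` apply DERG to `a'_k := ε_k a_k`: `D` maps `S` to `S` (values on the generators; `Algebra.adjoin_induction`), TAYD for the restriction: `E : S → Ω[[u]]`. `E` of an element with `D = 0` is a constant (derivative `0`, characteristic `0`). `f_k := E(x_k)`, `g_k := E(ψ_k)`: `f_k' = C(al'_k) g_k`, `2 g_k' = C(al'_k) B_k'(f_k)`, `al'_k = θ(al_k) = ε_k a_k` (`k ≠ i1`), `al'_(i1) = - ∑ ε_k a_k θ(r_k)`. Multiply `g_k` by `ε_k`: ODE with
`a := ε_k al'_k`: `f_k = rescale (a_k) X_k` for `k ≠ i1`, and `ε_(i1) al'_(i1) = - ∑ a_k r''_k`. `aeval f h = E(h(x)) = 0`. -/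
def ORB : Prop :=
  ∀ (K : Type) [Field K] [CharZero K] (σ : Type) [Fintype σ] [DecidableEq σ]
    (B : σ → Polynomial K), (∀ i, B i ≠ 0) → ∀ (n : σ → K) (i1 : σ) (Ω : Type) [Field Ω]
    [Algebra K Ω] [IsAlgClosed Ω] (P s : σ → Ω) (X Y : σ → PowerSeries Ω),
    n i1 ≠ 0 → (∀ k, s k ^ 2 = Polynomial.aeval (P k) (B k)) →
    (∀ k, Sol ((B k).map (algebraMap K Ω)) (P k) (s k) (X k) (Y k)) →
    ∀ h : MvPolynomial σ K, Inv B n h → aeval P h = 0 →
      ∃ r : σ → Ω, r i1 = 1 ∧ (∀ k, algebraMap K Ω (n i1) * r k ^ 2 = algebraMap K Ω (n k)) ∧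
        ∀ a : σ → K, aeval (fun k => PowerSeries.rescale
          (if k = i1 then - ∑ j ∈ Finset.univ.erase i1, algebraMap K Ω (a j) * r j
            else algebraMap K Ω (a k)) (X k)) h = 0

/-- **ELIM**: elimination of `X_(i1)` from two irreducible polynomials. No hypotheses.
PROOF. Resultant with respect to `X_(i1)`: `K[X_σ] = K[X_k, k ≠ i1][X_(i1)]`, `h` is irreducible of positive degree in `X_(i1)`, `h ∤ h'` (both irreducible, not associated). `Pool.Agent.Helper69.SGA.rnz` (resultant `≠ 0` for `F` irreducible of positive degree, `F ∤ G`, `deg G ≤ deg F`; exchange `h` and `h'` if necessary), `Polynomial.exists_mul_add_mul_eq_C_resultant`. Or: `h, h'` are coprime in `Frac(K[X_k, k ≠ i1])[X_(i1)]` (Gauss' lemma), Bezout, clear denominators. -/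
def ELIM : Prop :=
  ∀ (K : Type) [Field K] (σ : Type) [Fintype σ] [DecidableEq σ] (i1 : σ)
    (h h' : MvPolynomial σ K), Irreducible h → Irreducible h' → ¬ Associated h h' →
    1 ≤ h.degreeOf i1 → ∃ R a b : MvPolynomial σ K, R ≠ 0 ∧ R.degreeOf i1 = 0 ∧
      R = a * h + b * h'

/-- **UNIQ** (the uniqueness). Hypotheses allowed: ORB, ODE, TRS, INDS, ELIM.
PROOF. Choose `i1` with `n i1 ≠ 0`, `s k` a square root of `B_k(P_k)`, `X, Y` the solutions (ODE). ORB: for every `j` a vector `r_j`. The set of all `r` with `r i1 = 1` and `n_(i1) r_k² = n_k` has at most `2^|σ|` elements (every `r_k` is a root of a polynomial of degree `2`), so `r_j = r_(j')` for some `j ≠ j'` (pigeonhole). Suppose `h_j, h_(j')` are not associated. `h_j` involves `X_(i1)`: otherwise `pderiv i1 h = 0`, and `dvd` (`i`, `k = i1`) says `h ∣ C (n i1) * Bq B i * h_i²` for all `i`, contradiction to `ex`.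
ELIM: `R ≠ 0` without `X_(i1)`, `R = a h_j + b h_(j')`, so `R` vanishes at all the points `(rescale (a_k) X_k)`, and the coordinate `i1` does not matter: `aeval (fun k => rescale (a_k) X_k) R = 0` for all `a : σ → K` (`R` does not involve `X_(i1)`). INDS (for `R` mapped to `Ω`; `hX` from TRS: `s_k ≠ 0` or `B_k'(P_k) ≠ 0`): `R = 0`, contradiction. -/
def UNIQ : Prop :=
  ∀ (K : Type) [Field K] [CharZero K] (σ : Type) [Fintype σ] [DecidableEq σ]
    (B : σ → Polynomial K), (∀ i, B i ≠ 0) → ∀ (n : σ → K) (Ω : Type) [Field Ω]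
    [Algebra K Ω] [IsAlgClosed Ω] (P : σ → Ω), n ≠ 0 →
    (∀ k, Polynomial.aeval (P k) (B k) ≠ 0 ∨
      Polynomial.aeval (P k) (Polynomial.derivative (B k)) ≠ 0) →
    ∀ h : Fin (2 ^ Fintype.card σ + 1) → MvPolynomial σ K, (∀ j, Inv B n (h j)) →
      (∀ j, aeval P (h j) = 0) → ∃ j j', j ≠ j' ∧ Associated (h j) (h j')

end

end Pool.Agent.Helper92.UQ
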