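import Pool.Agent.Helper92.UQ.GoalsL
import Pool.Agent.Helper38.UQ.DERF
import Pool.Agent.Helper47.UQ.GENP
import Pool.Agent.Helper81.UQ.DERG
import Pool.Agent.Helper45.UQ.LYO
import Pool.Agent.Helper51.UQ.TAYD
import Pool.Agent.Helper66.UQ.ODE
import Pool.Agent.Helper16.UQ.TRS
import Pool.Agent.Helper96.UQ.INDS
import Pool.Agent.Helper31.UQ.ORB
import Pool.Agent.Helper57.UQ.ELIM
import Pool.Agent.Helper49.UQ.UNIQ

/-!
# MP_a41896_nt, project T3: LEAF (form LEAFN), assembly

The lemmas on derivatives and on classes of associated elements are by helper73 (`Helper73/UQ/LEAFQ.lean`).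
-/

set_option autoImplicit false

noncomputable section

open MvPolynomial

namespace Pool.Agent.Helper92.UQ.Main

open Pool.Agent.Helper92.UQ

/-! ### derivatives of irreducible polynomials -/

section der

variable {K : Type} [Field K] [CharZero K] {σ : Type}

omit [CharZero K] in
theorem deg_pd (i : σ) (h : MvPolynomial σ K) (hd : pderiv i h ≠ 0) :
    (pderiv i h).totalDegree < h.totalDegree := by
  classical
  have key : ∀ m ∈ (pderiv i h).support, (m.sum fun _ e => e) + 1 ≤ h.totalDegree := by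
    intro m hm
    rw [mem_support_iff, coeff_pderiv] at hm
    have h1 : coeff (m + Finsupp.single i 1) h ≠ 0 := left_ne_zero_of_mul hm
    have h2 := le_totalDegree (mem_support_iff.2 h1)
    refine le_trans (le_of_eq ?_) h2
    rw [Finsupp.sum_add_index' (fun _ => rfl) (fun _ _ _ => rfl), Finsupp.sum_single_index rfl]
  obtain ⟨m, hm⟩ := support_nonempty.2 hd
  have hpos : 0 < h.totalDegree := lt_of_lt_of_le (Nat.succ_pos _) (key m hm)
  unfold totalDegree at hpos ⊢
  rw [Finset.sup_lt_iff (by simpa using hpos)]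
  intro b hb
  exact Nat.lt_of_succ_le (key b hb)

omit [CharZero K] in
theorem not_dvd_pd (i : σ) (h : MvPolynomial σ K) (hd : pderiv i h ≠ 0) : ¬ h ∣ pderiv i h := by
  rintro ⟨g, hg⟩
  have h0 : h ≠ 0 := by
    rintro rfl
    exact hd (by simp)
  have hg0 : g ≠ 0 := by
    rintro rfl
    exact hd (by rw [hg, mul_zero])
  have h1 := deg_pd i h hd
  rw [hg, totalDegree_mul_of_isDomain h0 hg0] at h1
  omega

theorem exists_pd (h : MvPolynomial σ K) (hi : Irreducible h) : ∃ i, pderiv i h ≠ 0 := by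
  classical
  by_contra hcon
  push Not at hcon
  have h1 : h = C (coeff 0 h) := by
    ext m
    rw [coeff_C]
    by_cases hm : m = 0
    · simp [hm]
    · obtain ⟨i, hmi⟩ := Finsupp.ne_iff.1 hm
      rw [if_neg (Ne.symm hm)]
      have h2 := congrArg (coeff (m - Finsupp.single i 1)) (hcon i)
      rw [coeff_pderiv, coeff_zero] at h2
      have h3 : m - Finsupp.single i 1 + Finsupp.single i 1 = m := by
        refine tsub_add_cancel_of_le ?_
        rw [Finsupp.single_le_iff]
        simpa [Nat.one_le_iff_ne_zero] using hmi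
      rw [h3] at h2
      rcases mul_eq_zero.1 h2 with h4 | h4
      · exact h4
      · exfalso
        have h5 : (((m - (Finsupp.single i 1 : σ →₀ ℕ)) i : ℕ) : K) + 1 ≠ 0 := by
          exact_mod_cast Nat.succ_ne_zero (m i - (Finsupp.single i 1 : σ →₀ ℕ) i)
        exact h5 h4
  have h2 : coeff 0 h ≠ 0 := by
    intro h3
    rw [h3, map_zero] at h1
    exact hi.ne_zero h1
  apply hi.not_isUnit
  rw [h1]
  exact (IsUnit.mk0 _ h2).map C

end der

/-! ### finitely many classes -/

/-- a set without arbitrarily large families of pairwise non-associated elements is covered by finitely many classes -/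
theorem fin_classes {M : Type} [CommMonoidWithZero M] (S : Set M) (N : ℕ)
    (hN : ∀ F : Fin N → M, (∀ j, F j ∈ S) → ∃ j j', j ≠ j' ∧ Associated (F j) (F j')) :
    ∃ F0 : Finset M, (∀ g ∈ F0, g ∈ S) ∧ ∀ h ∈ S, ∃ g ∈ F0, Associated h g := by
  classical
  by_contra hcon
  push Not at hcon
  have key : ∀ m : ℕ, ∃ F : Fin m → M, (∀ j, F j ∈ S) ∧ ∀ j j', j ≠ j' → ¬ Associated (F j) (F j') := by
    intro m
    induction m with
    | zero => exact ⟨fun j => j.elim0, fun j => j.elim0, fun j => j.elim0⟩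
    | succ m ih =>
      obtain ⟨F, hF1, hF2⟩ := ih
      obtain ⟨h, hh, hn⟩ := hcon (Finset.univ.image F) (by
        intro g hg
        obtain ⟨j, -, rfl⟩ := Finset.mem_image.1 hg
        exact hF1 j)
      refine ⟨Fin.cons h F, ?_, ?_⟩
      · intro j
        refine Fin.cases ?_ ?_ j
        · simpa using hh
        · intro j
          simpa using hF1 j
      · intro j j'
        refine Fin.cases ?_ ?_ j
        · refine Fin.cases ?_ ?_ j'
          · intro hne
            exact absurd rfl hne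
          · intro j' _
            simp only [Fin.cons_zero, Fin.cons_succ]
            exact hn _ (Finset.mem_image_of_mem F (Finset.mem_univ j'))
        · intro j
          refine Fin.cases ?_ ?_ j'
          · intro _
            simp only [Fin.cons_zero, Fin.cons_succ]
            intro h1
            exact hn _ (Finset.mem_image_of_mem F (Finset.mem_univ j)) h1.symm
          · intro j' hne
            simp only [Fin.cons_succ]
            exact hF2 j j' (fun h1 => hne (by rw [h1]))
  obtain ⟨F, h1, h2⟩ := key N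
  obtain ⟨j, j', h3, h4⟩ := hN F h1
  exact h2 j j' h3 h4

/-! ### LEAF -/

theorem t_LEAFQ : LEAFQ := by
  intro hU K _ _ σ _ _ β hβ n i' hn Ω _ _ _ ξ
  classical
  have hn0 : n ≠ 0 := by
    intro h
    exact hn (by rw [h]; rfl)
  have hβ0 : ∀ i, β i ≠ 0 := by
    intro i h
    apply (hβ i).2
    rw [h, Polynomial.natDegree_zero]
  have hB0 : ∀ i, Bq β i ≠ 0 := by
    intro i h
    apply hβ0 i
    refine Polynomial.funext fun x => ?_
    have h1 := congrArg (aeval (fun _ : σ => x)) h
    unfold Bq at h1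
    rw [← Polynomial.aeval_algHom_apply, aeval_X, map_zero] at h1
    simpa using h1
  have hsep : ∀ k, Polynomial.aeval (ξ k) (β k) ≠ 0 ∨
      Polynomial.aeval (ξ k) (Polynomial.derivative (β k)) ≠ 0 := by
    intro k
    have h1 : (β k).Separable := (PerfectField.separable_iff_squarefree).2 (hβ k).1
    obtain ⟨a, b, hab⟩ := h1
    by_contra hcon
    push Not at hcon
    have h2 := congrArg (Polynomial.aeval (ξ k)) hab
    rw [map_add, map_mul, map_mul, hcon.1, hcon.2, mul_zero, mul_zero, add_zero, map_one] at h2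
    exact zero_ne_one h2
  obtain ⟨F0, hF0, hF1⟩ := fin_classes
    {h : MvPolynomial σ K | Irreducible h ∧ (∀ i k, h ∣ C (n k) * (Polynomial.aeval (X i) (β i) *
      pderiv i h ^ 2) - C (n i) * (Polynomial.aeval (X k) (β k) * pderiv k h ^ 2)) ∧
      aeval ξ h = 0 ∧ ∃ i, ¬ h ∣ Bq β i * pderiv i h ^ 2}
    (2 ^ Fintype.card σ + 1) (by
      intro F hF
      refine hU K σ β hβ0 n Ω ξ hn0 hsep F ?_ (fun j => (hF j).2.2.1)
      intro j
      obtain ⟨g1, g2, g3, i, g4⟩ := hF j
      refine ⟨g1, ⟨i, g4⟩, ?_⟩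
      intro a b
      rw [mul_assoc, mul_assoc]
      exact g2 a b)
  refine ⟨insert (∏ i, Bq β i) F0, ?_, ?_⟩
  · intro g hg
    rcases Finset.mem_insert.1 hg with rfl | hg
    · exact Finset.prod_ne_zero_iff.2 fun i _ => hB0 i
    · exact (hF0 g hg).1.ne_zero
  · intro h hirr hflat hzero
    by_cases hex : ∃ i, ¬ h ∣ Bq β i * pderiv i h ^ 2
    · obtain ⟨g, hg, hgh⟩ := hF1 h ⟨hirr, hflat, hzero, hex⟩
      exact ⟨g, Finset.mem_insert_of_mem hg, hgh.dvd⟩
    · push Not at hex
      obtain ⟨i, hi⟩ := exists_pd h hirr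
      have hp : Prime h := hirr.prime
      refine ⟨_, Finset.mem_insert_self _ _, ?_⟩
      rcases hp.dvd_or_dvd (hex i) with h1 | h1
      · exact h1.trans (Finset.dvd_prod_of_mem _ (Finset.mem_univ i))
      · exact absurd (hp.dvd_of_dvd_pow h1) (not_dvd_pd i h hi)

theorem th_UNIQ : UNIQ :=
  Pool.Agent.Helper49.UQ.UNIQ.t
    (Pool.Agent.Helper31.UQ.ORB.t Pool.Agent.Helper47.UQ.GENP.t
      (Pool.Agent.Helper81.UQ.DERG.t Pool.Agent.Helper38.UQ.DERF.t) Pool.Agent.Helper45.UQ.LYO.t
      Pool.Agent.Helper51.UQ.TAYD.t Pool.Agent.Helper66.UQ.ODE.t)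
    Pool.Agent.Helper66.UQ.ODE.t Pool.Agent.Helper16.UQ.TRS.t Pool.Agent.Helper96.UQ.INDS.t
    Pool.Agent.Helper57.UQ.ELIM.t

theorem th_LEAFN : LEAFN := t_LEAFQ th_UNIQ

end Pool.Agent.Helper92.UQ.Main
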