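import Pool.Agent.Helper92.UQ.Goals

/-!
# MP_a41896_nt, project T3: LEAF from the uniqueness lemma (form of helper60, 04:22Z: arbitrary squarefree polynomials)
-/

set_option autoImplicit false

open MvPolynomial

namespace Pool.Agent.Helper92.UQ

/-- finitely many flat hypersurfaces with given slopes contain a given point -/
def LEAFN : Prop :=
  ∀ (K : Type) [Field K] [CharZero K] (σ : Type) [Fintype σ] [DecidableEq σ]
    (β : σ → Polynomial K), (∀ i, Squarefree (β i) ∧ (β i).natDegree ≠ 0) →
    ∀ (n : σ → K) (i' : σ), n i' ≠ 0 →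
    ∀ (Ω : Type) [Field Ω] [Algebra K Ω] [IsAlgClosed Ω] (ξ : σ → Ω),
    ∃ F : Finset (MvPolynomial σ K), (∀ g ∈ F, g ≠ 0) ∧
      ∀ h : MvPolynomial σ K, Irreducible h →
        (∀ i k, h ∣ C (n k) * (Polynomial.aeval (X i) (β i) * pderiv i h ^ 2) -
          C (n i) * (Polynomial.aeval (X k) (β k) * pderiv k h ^ 2)) →
        aeval ξ h = 0 → ∃ g ∈ F, h ∣ g

/-- **LEAFQ**: LEAFN from UNIQ.
PROOF. `B := β` (`Bq β i = Polynomial.aeval (X i) (β i)` by `rfl`), `β i ≠ 0` (`natDegree ≠ 0`), and for every `t ∈ Ω`: `β_i(t) ≠ 0` or `β_i'(t) ≠ 0` (`Squarefree` in characteristic `0` is `Separable`: `PerfectField.separable_iff_squarefree`; map to `Ω`: `Polynomial.Separable` is `a β + b β' = 1`).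
Let `𝓢` be the set of the irreducible `h` with the divisibilities, `aeval ξ h = 0` and `∃ i, ¬ h ∣ Bq β i * (pderiv i h)²`; then `Inv β n h`. By UNIQ there is no family of `2^|σ| + 1` pairwise non-associated elements of `𝓢`. Choose a finite subset `F0 ⊆ 𝓢` of pairwise non-associated elements of maximal cardinality: every `h ∈ 𝓢` is associated to an element of `F0`. `F := F0 ∪ {∏_i Bq β i}`
(`Bq β i ≠ 0`: `aeval (X i)` is injective). If `h` is irreducible with the divisibilities and `aeval ξ h = 0` but not in `𝓢`, then `h ∣ Bq β i * (pderiv i h)²` for all `i`. `h` is not constant, so `pderiv i h ≠ 0` for some `i` (characteristic `0`), `h ∤ pderiv i h` (degree in `X_i`), `h` is prime, so `h ∣ Bq β i`. -/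
def LEAFQ : Prop := UNIQ → LEAFN

end Pool.Agent.Helper92.UQ
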